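import Pool.Agent.Helper20.IIC.Stmts

set_option autoImplicit false

/-! # (PE2) Peierls: a long path of closed edges -/

namespace IIC

open Filter Topology Set
open scoped BigOperators

section pe2

variable {d : ℕ}

/-- the edge from `x` in the direction `i` -/
def pe2_E (x : Fin d → ℤ) (i : Fin d) : Ed d :=
  ⟨s(x, x + Pi.single i 1), by
    rw [SimpleGraph.mem_edgeSet]
    show ∑ k, |x k - (x + Pi.single i 1 : Fin d → ℤ) k| = 1
    rw [Finset.sum_eq_single i]
    · simp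
    · intro k _ hk
      simp [Pi.single_eq_of_ne hk]
    · simp⟩

theorem pe2_le (x : Fin d → ℤ) (i : Fin d) : le (pe2_E x i) = s(x, x + Pi.single i 1) := rfl

/-- edges between `C` and its complement -/
def pe2_D (C : Set (Fin d → ℤ)) (e : Ed d) : Prop := ∃ x y, le e = s(x, y) ∧ x ∈ C ∧ y ∉ C

theorem pe2_D_iff (C : Set (Fin d → ℤ)) (x : Fin d → ℤ) (i : Fin d) :
    pe2_D C (pe2_E x i) ↔ ¬ (x ∈ C ↔ x + Pi.single i 1 ∈ C) := by
  unfold pe2_D
  rw [pe2_le]
  constructor
  · rintro ⟨a, b, h, ha, hb⟩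
    rw [Sym2.eq_iff] at h
    rcases h with ⟨rfl, rfl⟩ | ⟨rfl, rfl⟩ <;> tauto
  · intro h
    by_cases hx : x ∈ C
    · exact ⟨x, _, rfl, hx, by tauto⟩
    · exact ⟨x + Pi.single i 1, x, Sym2.eq_swap, by tauto, hx⟩

open Classical in
/-- indicator modulo two -/
noncomputable def pe2_i (p : Prop) : ZMod 2 := if p then 1 else 0

theorem pe2_i_pos {p : Prop} (h : p) : pe2_i p = 1 := by unfold pe2_i; rw [if_pos h]
theorem pe2_i_neg {p : Prop} (h : ¬ p) : pe2_i p = 0 := by unfold pe2_i; rw [if_neg h]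

theorem pe2_two (a : ZMod 2) : a + a = 0 := CharTwo.add_self_eq_zero a

theorem pe2_i_D (C : Set (Fin d → ℤ)) (x : Fin d → ℤ) (i : Fin d) :
    pe2_i (pe2_D C (pe2_E x i)) = pe2_i (x ∈ C) + pe2_i (x + Pi.single i 1 ∈ C) := by
  by_cases h1 : x ∈ C <;> by_cases h2 : x + Pi.single i 1 ∈ C
  · rw [pe2_i_neg (by rw [pe2_D_iff]; tauto), pe2_i_pos h1, pe2_i_pos h2]; rfl
  · rw [pe2_i_pos (by rw [pe2_D_iff]; tauto), pe2_i_pos h1, pe2_i_neg h2]; rfl
  · rw [pe2_i_pos (by rw [pe2_D_iff]; tauto), pe2_i_neg h1, pe2_i_pos h2]; rfl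
  · rw [pe2_i_neg (by rw [pe2_D_iff]; tauto), pe2_i_neg h1, pe2_i_neg h2]; rfl

/-- the four edges of a square -/
def pe2_sq (x : Fin d → ℤ) (i j : Fin d) (e : Ed d) : Prop :=
  e = pe2_E x i ∨ e = pe2_E x j ∨ e = pe2_E (x + Pi.single j 1) i ∨
    e = pe2_E (x + Pi.single i 1) j

theorem pe2_sq_plq {x : Fin d → ℤ} {i j : Fin d} (hij : i ≠ j) {e e' : Ed d}
    (he : pe2_sq x i j e) (he' : pe2_sq x i j e') : Plq e e' := by
  have key : ∀ f : Ed d, pe2_sq x i j f →
      le f = s(x, x + Pi.single i 1) ∨ le f = s(x, x + Pi.single j 1) ∨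
      le f = s(x + Pi.single j 1, x + Pi.single i 1 + Pi.single j 1) ∨
      le f = s(x + Pi.single i 1, x + Pi.single i 1 + Pi.single j 1) := by
    rintro f (rfl | rfl | rfl | rfl)
    · exact Or.inl rfl
    · exact Or.inr (Or.inl rfl)
    · right; right; left
      rw [pe2_le, add_right_comm]
    · exact Or.inr (Or.inr (Or.inr rfl))
  refine ⟨x, i, j, hij, ?_⟩
  rintro f (rfl | rfl)
  · exact key _ he
  · exact key _ he'

/-- a plaquette component is even on the squares -/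
theorem pe2_even (C : Set (Fin d → ℤ)) (D' : Ed d → Prop) (h1 : ∀ e, D' e → pe2_D C e)
    (h2 : ∀ e e', D' e → pe2_D C e' → Plq e e' → D' e') (x : Fin d → ℤ) {i j : Fin d}
    (hij : i ≠ j) :
    pe2_i (D' (pe2_E x i)) + pe2_i (D' (pe2_E (x + Pi.single j 1) i)) =
      pe2_i (D' (pe2_E x j)) + pe2_i (D' (pe2_E (x + Pi.single i 1) j)) := by
  by_cases h : ∃ e, pe2_sq x i j e ∧ D' e
  · obtain ⟨e, he, hD⟩ := h
    have key : ∀ f, pe2_sq x i j f → pe2_i (D' f) = pe2_i (pe2_D C f) := by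
      intro f hf
      by_cases h3 : D' f
      · rw [pe2_i_pos h3, pe2_i_pos (h1 f h3)]
      · rw [pe2_i_neg h3, pe2_i_neg]
        exact fun h4 => h3 (h2 e f hD h4 (pe2_sq_plq hij he hf))
    rw [key _ (Or.inl rfl), key _ (Or.inr (Or.inl rfl)), key _ (Or.inr (Or.inr (Or.inl rfl))),
      key _ (Or.inr (Or.inr (Or.inr rfl))), pe2_i_D, pe2_i_D, pe2_i_D, pe2_i_D,
      add_right_comm x (Pi.single j 1) (Pi.single i 1)]
    generalize pe2_i (x ∈ C) = a
    generalize pe2_i (x + Pi.single i 1 ∈ C) = b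
    generalize pe2_i (x + Pi.single j 1 ∈ C) = c
    generalize pe2_i (x + Pi.single i 1 + Pi.single j 1 ∈ C) = e
    revert a b c e
    decide
  · have key : ∀ f, pe2_sq x i j f → pe2_i (D' f) = 0 :=
      fun f hf => pe2_i_neg fun h3 => h ⟨f, hf, h3⟩
    rw [key _ (Or.inl rfl), key _ (Or.inr (Or.inl rfl)), key _ (Or.inr (Or.inr (Or.inl rfl))),
      key _ (Or.inr (Or.inr (Or.inr rfl)))]

/-- telescoping modulo two -/
theorem pe2_tel (a : ℕ → ZMod 2) (K : ℕ) :
    ∑ k ∈ Finset.range K, (a k + a (k + 1)) = a 0 + a K := by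
  induction K with
  | zero => simp [pe2_two]
  | succ K ih =>
    rw [Finset.sum_range_succ, ih]
    have := pe2_two (a K)
    linear_combination this

theorem pe2_sh (x : Fin d → ℤ) (i : Fin d) (k : ℕ) :
    x + Pi.single i ((k + 1 : ℕ) : ℤ) = x + Pi.single i (k : ℤ) + Pi.single i 1 := by
  rw [add_assoc, ← Pi.single_add]
  push_cast
  rfl

/-- the plaquette component meets the negative half axis -/
theorem pe2_neg (C : Set (Fin d → ℤ)) (D' : Ed d → Prop) (h1 : ∀ e, D' e → pe2_D C e)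
    (h2 : ∀ e e', D' e → pe2_D C e' → Plq e e' → D' e') (N : ℕ)
    (hN : ∀ (x : Fin d → ℤ) (m : Fin d), (N : ℤ) < |x m| → ∀ i, ¬ D' (pe2_E x i))
    {i₀ j : Fin d} (hij : i₀ ≠ j)
    (hodd : ∑ k ∈ Finset.range (N + 2), pe2_i (D' (pe2_E (Pi.single i₀ (k : ℤ)) i₀)) = 1) :
    ∃ k : ℕ, 1 ≤ k ∧ D' (pe2_E (Pi.single i₀ (-(k : ℤ))) i₀) := by
  -- the function `F`
  let y : ℕ → (Fin d → ℤ) := fun t => Pi.single i₀ (-((N + 1 : ℕ) : ℤ)) + Pi.single j (t : ℤ)
  let F : ℕ → ZMod 2 := fun t =>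
    ∑ k ∈ Finset.range (2 * N + 3), pe2_i (D' (pe2_E (y t + Pi.single i₀ (k : ℤ)) i₀))
  have hstep : ∀ t, F t + F (t + 1) = 0 := by
    intro t
    have e1 : F t + F (t + 1) = ∑ k ∈ Finset.range (2 * N + 3),
        (pe2_i (D' (pe2_E (y t + Pi.single i₀ (k : ℤ)) j)) +
          pe2_i (D' (pe2_E (y t + Pi.single i₀ ((k + 1 : ℕ) : ℤ)) j))) := by
      show (∑ k ∈ Finset.range (2 * N + 3), _) + (∑ k ∈ Finset.range (2 * N + 3), _) = _
      rw [← Finset.sum_add_distrib]
      refine Finset.sum_congr rfl fun k _ => ?_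
      have e3 := pe2_even C D' h1 h2 (y t + Pi.single i₀ (k : ℤ)) hij
      have e2 : y (t + 1) = y t + Pi.single j 1 := pe2_sh _ _ _
      have e4 : y t + Pi.single i₀ ((k + 1 : ℕ) : ℤ) = y t + Pi.single i₀ (k : ℤ) +
        Pi.single i₀ 1 := pe2_sh _ _ _
      have e5 : y (t + 1) + Pi.single i₀ (k : ℤ) = y t + Pi.single i₀ (k : ℤ) +
        Pi.single j 1 := by rw [e2, add_right_comm]
      rw [e4, e5]
      exact e3
    rw [e1]
    refine (pe2_tel (fun k => pe2_i (D' (pe2_E (y t + Pi.single i₀ (k : ℤ)) j))) _).trans ?_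
    rw [pe2_i_neg, pe2_i_neg, add_zero]
    · refine hN _ i₀ ?_ j
      simp only [y, Pi.add_apply, Pi.single_eq_same, Pi.single_eq_of_ne hij]
      rw [abs_of_nonneg (by push_cast; linarith)]
      push_cast
      linarith
    · refine hN _ i₀ ?_ j
      simp only [y, Pi.add_apply, Pi.single_eq_same, Pi.single_eq_of_ne hij]
      rw [abs_of_nonpos (by push_cast; linarith)]
      push_cast
      linarith
  have hconst : ∀ t, F t = F 0 := by
    intro t
    induction t with
    | zero => rfl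
    | succ t ih =>
      rw [← ih]
      have h3 := hstep t
      have h4 := pe2_two (F t)
      linear_combination h3 - h4
  have hfar : F (N + 1) = 0 := by
    refine Finset.sum_eq_zero fun k _ => pe2_i_neg (hN _ j ?_ i₀)
    simp only [y, Pi.add_apply, Pi.single_eq_same, Pi.single_eq_of_ne (Ne.symm hij)]
    rw [abs_of_nonneg (by push_cast; linarith)]
    push_cast
    linarith
  have h0 : F 0 = 0 := by rw [← hconst (N + 1), hfar]
  by_contra hc
  push Not at hc
  have h3 : F 0 = 1 := by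
    show ∑ k ∈ Finset.range (2 * N + 3), pe2_i (D' (pe2_E (y 0 + Pi.single i₀ (k : ℤ)) i₀)) = 1
    rw [show 2 * N + 3 = (N + 1) + (N + 2) by ring, Finset.sum_range_add]
    have e1 : ∑ k ∈ Finset.range (N + 1),
        pe2_i (D' (pe2_E (y 0 + Pi.single i₀ (k : ℤ)) i₀)) = 0 := by
      refine Finset.sum_eq_zero fun k hk => pe2_i_neg ?_
      rw [Finset.mem_range] at hk
      have e2 : y 0 + Pi.single i₀ (k : ℤ) = Pi.single i₀ (-((N + 1 - k : ℕ) : ℤ)) := by
        show (Pi.single i₀ (-((N + 1 : ℕ) : ℤ)) + Pi.single j ((0 : ℕ) : ℤ) +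
          Pi.single i₀ (k : ℤ) : Fin d → ℤ) = _
        rw [Nat.cast_zero, Pi.single_zero, add_zero, ← Pi.single_add]
        congr 1
        rw [Nat.cast_sub (by omega)]
        ring
      rw [e2]
      exact hc _ (by omega)
    rw [e1, zero_add, ← hodd]
    refine Finset.sum_congr rfl fun k _ => ?_
    have e2 : y 0 + Pi.single i₀ ((N + 1 + k : ℕ) : ℤ) = Pi.single i₀ (k : ℤ) := by
      show (Pi.single i₀ (-((N + 1 : ℕ) : ℤ)) + Pi.single j ((0 : ℕ) : ℤ) +
        Pi.single i₀ ((N + 1 + k : ℕ) : ℤ) : Fin d → ℤ) = _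
      rw [Nat.cast_zero, Pi.single_zero, add_zero, ← Pi.single_add]
      congr 1
      push_cast
      ring
    rw [e2]
  rw [h0] at h3
  exact absurd h3 (by decide)

/-- lower coordinate of an edge -/
def pe2_low (i₀ : Fin d) : Sym2 (Fin d → ℤ) → ℤ :=
  Sym2.lift ⟨fun x y => min (x i₀) (y i₀), fun _ _ => min_comm _ _⟩

theorem pe2_low_mk (i₀ : Fin d) (x y : Fin d → ℤ) : pe2_low i₀ s(x, y) = min (x i₀) (y i₀) := rfl

theorem pe2_low_plq (i₀ : Fin d) {e e' : Ed d} (h : Plq e e') :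
    pe2_low i₀ (le e) ≤ pe2_low i₀ (le e') + 1 := by
  obtain ⟨x, i, j, hij, h⟩ := h
  have key : ∀ f : Ed d, (f = e ∨ f = e') →
      x i₀ ≤ pe2_low i₀ (le f) ∧ pe2_low i₀ (le f) ≤ x i₀ + 1 := by
    intro f hf
    have h0 : ∀ m : Fin d, 0 ≤ (Pi.single m 1 : Fin d → ℤ) i₀ ∧
        (Pi.single m 1 : Fin d → ℤ) i₀ ≤ 1 := by
      intro m
      by_cases hm : i₀ = m
      · subst hm; simp
      · simp [Pi.single_eq_of_ne hm]
    have hi := h0 i
    have hj := h0 j
    have hs : (Pi.single i 1 : Fin d → ℤ) i₀ = 0 ∨ (Pi.single j 1 : Fin d → ℤ) i₀ = 0 := by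
      by_cases hm : i₀ = i
      · right
        rw [hm, Pi.single_eq_of_ne hij]
      · left
        rw [Pi.single_eq_of_ne hm]
    rcases h f hf with h | h | h | h
    all_goals
      rw [h, pe2_low_mk]
      simp only [Pi.add_apply]
      omega
  have h1 := key e (Or.inl rfl)
  have h2 := key e' (Or.inr rfl)
  omega

/-- adjacency inside `D` -/
def pe2_G (C : Set (Fin d → ℤ)) : SimpleGraph (Ed d) where
  Adj e e' := e ≠ e' ∧ pe2_D C e ∧ pe2_D C e' ∧ Plq e e'
  symm := ⟨by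
    rintro e e' ⟨h1, h2, h3, x, i, j, hij, h4⟩
    exact ⟨h1.symm, h3, h2, x, i, j, hij, fun f hf => h4 f hf.symm⟩⟩
  loopless := ⟨fun e h => h.1 rfl⟩

theorem pe2_reach (C : Set (Fin d → ℤ)) {a e : Ed d} (ha : pe2_D C a)
    (h : (pe2_G C).Reachable a e) : pe2_D C e := by
  obtain ⟨w⟩ := h
  induction w with
  | nil => exact ha
  | cons h _ ih => exact ih h.2.2.1

end pe2

/-- (PE2) -/
theorem st_PE2 : ST_PE2 := by
  classical
  intro d hd i₀ Λ T _ h0
  -- the cluster of the origin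
  set ω : Cfg d := exw Λ T
  let C : Set (Fin d → ℤ) := {y | LConn ω 0 y}
  have hC : C.Finite := by
    by_contra hc
    exact h0 hc
  have hC0 : (0 : Fin d → ℤ) ∈ C := Relation.ReflTransGen.refl
  have hclosed : ∀ e, pe2_D C e → ω e = false := by
    rintro e ⟨x, y, h1, h2, h3⟩
    by_contra h4
    rw [Bool.not_eq_false] at h4
    exact h3 (Relation.ReflTransGen.tail h2 ⟨e, h4, h1⟩)
  -- a bound
  obtain ⟨N, hN⟩ : ∃ N : ℕ, ∀ x ∈ C, ∀ m : Fin d, |x m| < (N : ℤ) := by
    refine ⟨hC.toFinset.sup nrm + 1, fun x hx m => ?_⟩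
    have h1 : nrm x ≤ hC.toFinset.sup nrm := Finset.le_sup (hC.mem_toFinset.2 hx)
    have h2 : (x m).natAbs ≤ nrm x :=
      Finset.le_sup (f := fun i => (x i).natAbs) (Finset.mem_univ m)
    push_cast
    rw [Int.abs_eq_natAbs]
    omega
  have hfar : ∀ (x : Fin d → ℤ) (m : Fin d), (N : ℤ) < |x m| → ∀ i, ¬ pe2_D C (pe2_E x i) := by
    intro x m hx i hD
    rw [pe2_D_iff] at hD
    apply hD
    constructor
    · intro h
      have := hN x h m
      omega
    · intro h
      have h1 := hN _ h m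
      rw [Pi.add_apply] at h1
      have h2 : |(Pi.single i 1 : Fin d → ℤ) m| ≤ 1 := by
        by_cases hm : m = i
        · subst hm; simp
        · simp [Pi.single_eq_of_ne hm]
      have h3 := abs_sub_abs_le_abs_sub (x m) (-(Pi.single i 1 : Fin d → ℤ) m)
      rw [sub_neg_eq_add, abs_neg] at h3
      omega
  -- another direction
  obtain ⟨j, hij⟩ : ∃ j : Fin d, i₀ ≠ j := by
    by_contra hc
    push Not at hc
    have h1 := hc ⟨0, by omega⟩
    have h2 := hc ⟨1, by omega⟩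
    rw [h1, Fin.mk.injEq] at h2
    omega
  -- the edges of `D` on the half axis
  let E0 : ℕ → Ed d := fun k => pe2_E (Pi.single i₀ (k : ℤ)) i₀
  have hsum : ∑ k ∈ Finset.range (N + 2), pe2_i (pe2_D C (E0 k)) = 1 := by
    have e1 : ∀ k : ℕ, pe2_i (pe2_D C (E0 k)) =
        pe2_i ((Pi.single i₀ (k : ℤ) : Fin d → ℤ) ∈ C) +
          pe2_i ((Pi.single i₀ ((k + 1 : ℕ) : ℤ) : Fin d → ℤ) ∈ C) := by
      intro k
      show pe2_i (pe2_D C (pe2_E (Pi.single i₀ (k : ℤ)) i₀)) = _
      rw [pe2_i_D, ← Pi.single_add]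
      push_cast
      rfl
    rw [Finset.sum_congr rfl fun k _ => e1 k]
    refine (pe2_tel (fun k => pe2_i ((Pi.single i₀ (k : ℤ) : Fin d → ℤ) ∈ C)) _).trans ?_
    rw [pe2_i_pos, pe2_i_neg, add_zero]
    · intro h
      have h1 := hN _ h i₀
      rw [Pi.single_eq_same, abs_of_nonneg (by positivity)] at h1
      push_cast at h1
      omega
    · simpa using hC0
  -- choice of the component
  obtain ⟨L, hLD, hL⟩ : ∃ L : ℕ, pe2_D C (E0 L) ∧
      ∑ k ∈ Finset.range (N + 2), pe2_i ((pe2_G C).Reachable (E0 L) (E0 k)) = 1 := by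
    by_contra hc
    push Not at hc
    have hc' : ∀ L : ℕ, pe2_D C (E0 L) →
        ∑ k ∈ Finset.range (N + 2), pe2_i ((pe2_G C).Reachable (E0 L) (E0 k)) = 0 := by
      intro L hL
      have h1 := hc L hL
      generalize (∑ k ∈ Finset.range (N + 2), pe2_i ((pe2_G C).Reachable (E0 L) (E0 k))) = z at h1
      revert z
      decide
    let H : Finset ℕ := (Finset.range (N + 2)).filter fun k => pe2_D C (E0 k)
    have h1 : ((H.card : ℕ) : ZMod 2) = 1 := by
      rw [← hsum, Finset.card_filter]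
      push_cast
      rfl
    have h2 : ((H.card : ℕ) : ZMod 2) = 0 := by
      rw [Finset.card_eq_sum_card_image (fun k => (pe2_G C).connectedComponentMk (E0 k)) H]
      push_cast
      refine Finset.sum_eq_zero fun b hb => ?_
      obtain ⟨L, hL, rfl⟩ := Finset.mem_image.1 hb
      have hLD : pe2_D C (E0 L) := (Finset.mem_filter.1 hL).2
      rw [← hc' L hLD, Finset.card_filter]
      push_cast
      rw [Finset.sum_filter]
      refine Finset.sum_congr rfl fun k _ => ?_
      by_cases h3 : (pe2_G C).Reachable (E0 L) (E0 k)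
      · rw [pe2_i_pos h3, if_pos (pe2_reach C hLD h3),
          if_pos (SimpleGraph.ConnectedComponent.sound h3.symm)]
      · rw [pe2_i_neg h3]
        by_cases h4 : pe2_D C (E0 k)
        · rw [if_pos h4, if_neg]
          intro h5
          exact h3 (SimpleGraph.ConnectedComponent.exact h5).symm
        · rw [if_neg h4]
    rw [h1] at h2
    exact absurd h2 (by decide)
  -- the component meets the negative half axis
  obtain ⟨k, hk1, hk⟩ := pe2_neg C (fun e => (pe2_G C).Reachable (E0 L) e)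
    (fun e h => pe2_reach C hLD h)
    (fun e e' h h' hp => by
      by_cases he : e = e'
      · rw [← he]; exact h
      · exact h.trans (SimpleGraph.Adj.reachable ⟨he, pe2_reach C hLD h, h', hp⟩))
    N (fun x m hx i h => hfar x m hx i (pe2_reach C hLD h)) hij hL
  -- the path
  obtain ⟨w⟩ := hk
  let q := w.toPath
  have hq : ∀ t < q.1.length, (pe2_G C).Adj (q.1.getVert t) (q.1.getVert (t + 1)) :=
    fun t ht => q.1.adj_getVert_succ ht
  have hqD : ∀ t, pe2_D C (q.1.getVert t) := fun t =>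
    pe2_reach C hLD (q.1.take t).reachable
  have hlow : ∀ t ≤ q.1.length, (L : ℤ) - t ≤ pe2_low i₀ (le (q.1.getVert t)) := by
    intro t
    induction t with
    | zero =>
      intro _
      rw [SimpleGraph.Walk.getVert_zero]
      show (L : ℤ) - ((0 : ℕ) : ℤ) ≤ pe2_low i₀ (le (pe2_E (Pi.single i₀ (L : ℤ)) i₀))
      rw [pe2_le, pe2_low_mk, Pi.add_apply, Pi.single_eq_same, Pi.single_eq_same]
      push_cast
      omega
    | succ t ih =>
      intro ht
      have h1 := ih (by omega)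
      have h2 := pe2_low_plq i₀ (hq t (by omega)).2.2.2
      push_cast
      omega
  refine ⟨q.1.length, fun t => q.1.getVert t, L, ?_, ?_, fun t ht => (hq t ht).2.2.2,
    fun t _ => hclosed _ (hqD t), ?_⟩
  · have h1 := hlow _ le_rfl
    rw [SimpleGraph.Walk.getVert_length, pe2_le, pe2_low_mk, Pi.add_apply, Pi.single_eq_same,
      Pi.single_eq_same] at h1
    omega
  · show le (q.1.getVert 0) = _
    rw [SimpleGraph.Walk.getVert_zero]
    show le (pe2_E (Pi.single i₀ (L : ℤ)) i₀) = _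
    rw [pe2_le, ← Pi.single_add]
  · exact q.2.getVert_injOn

end IIC
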